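import Pool.Agent.H8.ChompC

/-! Ideal Chomp: the second player wins on some ring of each Krull dimension. -/

namespace Pool.Agent.Results.MP_ba75bf_co.AllDims

/-- The ideal after `k` full rounds, when A plays `a 0, a 1, ...` and B, facing the ideal `J`,
plays `σ J`. -/
def pos {R : Type} [CommRing R] (σ : Ideal R → R) (a : ℕ → R) : ℕ → Ideal R
  | 0 => ⊥
  | k + 1 => (pos σ a k ⊔ Ideal.span {a k}) ⊔ Ideal.span {σ (pos σ a k ⊔ Ideal.span {a k})}

/-- B has a winning strategy `σ`: for every sequence of moves of A that are legal while the game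
lasts, there is a round `N` before which the ideal is still proper, in which A's move produces
the whole ring, and all of B's moves in the earlier rounds were legal. -/
def BWins (R : Type) [CommRing R] : Prop :=
  ∃ σ : Ideal R → R, ∀ a : ℕ → R, (∀ k, pos σ a k ≠ ⊤ → a k ∉ pos σ a k) →
    ∃ N, pos σ a N ≠ ⊤ ∧ pos σ a N ⊔ Ideal.span {a N} = ⊤ ∧
      ∀ k < N, σ (pos σ a k ⊔ Ideal.span {a k}) ∉ pos σ a k ⊔ Ideal.span {a k}

lemma pos_eq {R : Type} [CommRing R] (σ : Ideal R → R) (a : ℕ → R) (k : ℕ) :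
    pos σ a k = Pool.Agent.H8.Chomp.pos σ a k := by
  induction k with
  | zero => rfl
  | succ k ih => simp only [pos, Pool.Agent.H8.Chomp.pos, ih]

theorem result (n : ℕ) : ∃ (R : Type) (_ : CommRing R), ringKrullDim R = n ∧ BWins R := by
  obtain ⟨R, inst, h1, σ, h2⟩ := Pool.Agent.H8.Chomp.main n
  refine ⟨R, inst, h1, σ, fun a ha => ?_⟩
  simp only [pos_eq] at ha ⊢
  exact h2 a ha

end Pool.Agent.Results.MP_ba75bf_co.AllDims
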